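import Mathlib

/-!
# Random convex sets in a Banach space: basic definitions

Nonempty bounded convex sets, the Rådström embedding, B-convexity, Minkowski averages.
-/

namespace Q298.RandomSets

open scoped Pointwise BoundedContinuousFunction

/-- A nonempty bounded convex subset of `X`. -/
structure BC (X : Type) [NormedAddCommGroup X] [NormedSpace ℝ X] where
  /-- the underlying set -/
  carrier : Set X
  nonempty : carrier.Nonempty
  bounded : Bornology.IsBounded carrier
  convex : Convex ℝ carrier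

/-- The unit sphere of the dual space. -/
abbrev DualSphere (X : Type) [NormedAddCommGroup X] [NormedSpace ℝ X] : Type :=
  Metric.sphere (0 : StrongDual ℝ X) 1

/-- The norm of a set: `sup {‖a‖ : a ∈ A}`. -/
noncomputable def setNorm {X : Type} [NormedAddCommGroup X] (A : Set X) : ℝ := sSup (norm '' A)

section

variable {X : Type} [NormedAddCommGroup X] [NormedSpace ℝ X]

lemma bddAbove_norm {A : Set X} (h : Bornology.IsBounded A) : BddAbove (norm '' A) := by
  obtain ⟨C, hC⟩ := h.exists_norm_le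
  exact ⟨C, by rintro _ ⟨a, ha, rfl⟩; exact hC a ha⟩

lemma norm_le_setNorm {A : Set X} (h : Bornology.IsBounded A) {a : X} (ha : a ∈ A) :
    ‖a‖ ≤ setNorm A := le_csSup (bddAbove_norm h) ⟨a, ha, rfl⟩

lemma setNorm_nonneg (A : Set X) : 0 ≤ setNorm A :=
  Real.sSup_nonneg (by rintro _ ⟨a, _, rfl⟩; exact norm_nonneg a)

lemma apply_le {A : Set X} (h : Bornology.IsBounded A) (f : StrongDual ℝ X) {a : X} (ha : a ∈ A) :
    |f a| ≤ ‖f‖ * setNorm A :=
  (f.le_opNorm a).trans (mul_le_mul_of_nonneg_left (norm_le_setNorm h ha) (norm_nonneg f))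

lemma bddAbove_apply {A : Set X} (h : Bornology.IsBounded A) (f : StrongDual ℝ X) :
    BddAbove (f '' A) :=
  ⟨‖f‖ * setNorm A, by rintro _ ⟨a, ha, rfl⟩; exact (le_abs_self _).trans (apply_le h f ha)⟩

lemma sSup_apply_sub_le {A : Set X} (hne : A.Nonempty) (h : Bornology.IsBounded A)
    (f g : StrongDual ℝ X) : sSup (f '' A) - sSup (g '' A) ≤ ‖f - g‖ * setNorm A := by
  rw [sub_le_iff_le_add]
  refine csSup_le (hne.image f) ?_
  rintro _ ⟨a, ha, rfl⟩
  have h1 : f a - g a ≤ ‖f - g‖ * setNorm A := by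
    have := apply_le h (f - g) ha
    exact (le_abs_self _).trans this
  have h2 : g a ≤ sSup (g '' A) := le_csSup (bddAbove_apply h g) ⟨a, ha, rfl⟩
  linarith

lemma abs_sSup_apply_le {A : Set X} (hne : A.Nonempty) (h : Bornology.IsBounded A)
    (f : StrongDual ℝ X) : |sSup (f '' A)| ≤ ‖f‖ * setNorm A := by
  rw [abs_le]
  constructor
  · obtain ⟨a, ha⟩ := hne
    have h1 := (abs_le.mp (apply_le h f ha)).1
    have h2 : f a ≤ sSup (f '' A) := le_csSup (bddAbove_apply h f) ⟨a, ha, rfl⟩
    linarith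
  · refine csSup_le (hne.image f) ?_
    rintro _ ⟨a, ha, rfl⟩
    exact (le_abs_self _).trans (apply_le h f ha)

/-- The Rådström embedding `R(A)(x*) = sup {x*(a) : a ∈ A}` of the nonempty bounded convex sets
into the bounded continuous functions on the dual unit sphere. -/
noncomputable def R (A : BC X) : DualSphere X →ᵇ ℝ :=
  BoundedContinuousFunction.ofNormedAddCommGroup
    (fun f : DualSphere X => sSup ((f : StrongDual ℝ X) '' A.carrier))
    (by
      refine LipschitzWith.continuous (K := (setNorm A.carrier).toNNReal) ?_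
      refine LipschitzWith.of_dist_le_mul fun f g => ?_
      rw [Real.dist_eq, Real.coe_toNNReal _ (setNorm_nonneg _), abs_le]
      have h1 := sSup_apply_sub_le A.nonempty A.bounded (f : StrongDual ℝ X) g
      have h2 := sSup_apply_sub_le A.nonempty A.bounded (g : StrongDual ℝ X) f
      have h3 : dist f g = ‖(f : StrongDual ℝ X) - g‖ := by
        rw [Subtype.dist_eq, dist_eq_norm]
      rw [norm_sub_rev] at h2
      rw [h3]
      constructor <;> linarith)
    (setNorm A.carrier)
    (by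
      intro f
      have h1 := abs_sSup_apply_le A.nonempty A.bounded (f : StrongDual ℝ X)
      have h2 : ‖(f : StrongDual ℝ X)‖ = 1 := by simp
      rw [h2, one_mul] at h1
      exact h1)

lemma R_eval (A : BC X) (f : DualSphere X) :
    R A f = sSup ((f : StrongDual ℝ X) '' A.carrier) := rfl

/-- The Minkowski average `(1/n) (A₀ + ⋯ + A_{n-1})`. -/
noncomputable def average (A : ℕ → BC X) (n : ℕ) : Set X :=
  (1 / (n : ℝ)) • ∑ i ∈ Finset.range n, (A i).carrier

lemma mem_average (A : ℕ → BC X) (n : ℕ) (a : ℕ → X) (ha : ∀ i, a i ∈ (A i).carrier) :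
    (1 / (n : ℝ)) • ∑ i ∈ Finset.range n, a i ∈ average A n :=
  Set.smul_mem_smul_set (Set.finsetSum_mem_finsetSum _ _ _ fun i _ => ha i)

lemma bounded_sum (A : ℕ → BC X) (n : ℕ) :
    Bornology.IsBounded (∑ i ∈ Finset.range n, (A i).carrier) := by
  induction n with
  | zero =>
    rw [Finset.range_zero, Finset.sum_empty]
    exact Bornology.isBounded_singleton (x := (0 : X))
  | succ n ih =>
    rw [Finset.sum_range_succ]
    exact Bornology.IsBounded.add ih (A n).bounded

lemma bounded_average (A : ℕ → BC X) (n : ℕ) : Bornology.IsBounded (average A n) :=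
  (bounded_sum A n).smul₀ _

end

/-- The space of bounded continuous functions on the dual unit sphere carries its Borel
sigma-algebra. -/
noncomputable instance {X : Type} [NormedAddCommGroup X] [NormedSpace ℝ X] :
    MeasurableSpace (DualSphere X →ᵇ ℝ) := borel _

instance {X : Type} [NormedAddCommGroup X] [NormedSpace ℝ X] : BorelSpace (DualSphere X →ᵇ ℝ) :=
  ⟨rfl⟩

/-- The random set `Ψ` has expectation `U`: `R ∘ Ψ` is Bochner integrable with integral `R U`. -/
def HasExpectation {X : Type} [NormedAddCommGroup X] [NormedSpace ℝ X] {Ω : Type}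
    [MeasurableSpace Ω] (P : MeasureTheory.Measure Ω) (Ψ : Ω → BC X) (U : BC X) : Prop :=
  MeasureTheory.Integrable (fun ω => R (Ψ ω)) P ∧ ∫ ω, R (Ψ ω) ∂P = R U

/-- B-convexity: there are `k ≥ 2` and `ε > 0` such that for all `x₁, …, x_k` in the unit ball some
choice of signs gives `‖± x₁ ± ⋯ ± x_k‖ ≤ k (1 - ε)`. -/
def BConvex (X : Type) [NormedAddCommGroup X] [NormedSpace ℝ X] : Prop :=
  ∃ k : ℕ, 2 ≤ k ∧ ∃ ε : ℝ, 0 < ε ∧ ∀ x : Fin k → X, (∀ i, ‖x i‖ ≤ 1) →
    ∃ s : Fin k → ℝ, (∀ i, s i = 1 ∨ s i = -1) ∧ ‖∑ i, s i • x i‖ ≤ k * (1 - ε)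

/-- Inner product spaces are B-convex. -/
lemma bConvex_of_inner (X : Type) [NormedAddCommGroup X] [InnerProductSpace ℝ X] : BConvex X := by
  refine ⟨2, le_rfl, 1 / 4, by norm_num, fun x hx => ?_⟩
  have hpar := parallelogram_law_with_norm ℝ (x 0) (x 1)
  have h0 : ‖x 0‖ ^ 2 ≤ 1 := pow_le_one₀ (norm_nonneg _) (hx 0)
  have h1 : ‖x 1‖ ^ 2 ≤ 1 := pow_le_one₀ (norm_nonneg _) (hx 1)
  by_cases h : ‖x 0 + x 1‖ ≤ 3 / 2
  · refine ⟨fun _ => 1, fun _ => Or.inl rfl, ?_⟩
    rw [Fin.sum_univ_two]
    simp only [one_smul]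
    norm_num
    linarith
  · refine ⟨![1, -1], fun i => by fin_cases i <;> simp, ?_⟩
    rw [Fin.sum_univ_two]
    simp only [Matrix.cons_val_zero, Matrix.cons_val_one, one_smul, neg_smul]
    rw [← sub_eq_add_neg]
    rw [not_le] at h
    have h2 : ‖x 0 - x 1‖ ^ 2 ≤ (3 / 2) ^ 2 := by nlinarith
    have h3 : ‖x 0 - x 1‖ ≤ 3 / 2 := le_of_sq_le_sq h2 (by norm_num)
    refine h3.trans ?_
    norm_num

end Q298.RandomSets
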